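import Pool.Agent.Lib.MP_820675_pr.Exist

open Filter Topology Asymptotics Pool.Agent.MP820675

namespace Pool.Agent.MP820675

variable {d n : ℕ}

lemma tmix_nonneg (μ : Equiv.Perm (Fin d) → ℝ) (n : ℕ) (π : State d n → ℝ) (ε : ℝ) :
    0 ≤ tmix μ n π ε :=
  Real.sInf_nonneg fun _ ht => ht.1

end Pool.Agent.MP820675

/-- For every `d ≥ 2` and every `μ` with `U` irreducible, the balanced chains do not have cutoff
with window of size `O(w n)` for any sequence `w n = o(n)`. -/
theorem Pool.Agent.Results.MP_820675_pr.WindowLowerBound.result (d : ℕ) (hd : 2 ≤ d)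
    (μ : Equiv.Perm (Fin d) → ℝ) (hμ : IsDist μ) (hU : IsIrred (U μ))
    (π : ∀ n, State d n → ℝ) (hπ : ∀ n, 1 ≤ n → IsStationary μ n (π n))
    (w : ℕ → ℝ) (hw : w =o[atTop] (fun n : ℕ => (n : ℝ))) :
    ¬ HasCutoffWindow μ π w := by
  rintro ⟨hw0, hwt, hlow, hupp⟩
  obtain ⟨ε, hε, n₀, hkey⟩ := key_prop hd hμ hU
  -- one `α > 0` for which both limits are close to their targets
  have e1 : ∀ᶠ α : ℝ in atTop, 1 - ε < liminf (fun n : ℕ =>
      worst μ n (π n) (tmix μ n (π n) (1 / 4) - α * w n)) atTop :=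
    hlow.eventually (lt_mem_nhds (by linarith))
  have e2 : ∀ᶠ α : ℝ in atTop, limsup (fun n : ℕ =>
      worst μ n (π n) (tmix μ n (π n) (1 / 4) + α * w n)) atTop < ε :=
    hupp.eventually (gt_mem_nhds hε)
  obtain ⟨α, ⟨h1, h2⟩, hα⟩ := ((e1.and e2).and (eventually_gt_atTop (0 : ℝ))).exists
  -- the two bounds for all large `n`
  have hT : ∀ n, 0 ≤ tmix μ n (π n) (1 / 4) := fun n => tmix_nonneg μ n (π n) _
  have b1 : ∀ᶠ n : ℕ in atTop, 1 - ε <
      worst μ n (π n) (tmix μ n (π n) (1 / 4) - α * w n) := by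
    refine eventually_lt_of_lt_liminf h1 ?_
    exact ⟨0, by
      rw [eventually_map]
      exact Eventually.of_forall fun n => worst_nonneg _ _⟩
  have b2 : ∀ᶠ n : ℕ in atTop,
      worst μ n (π n) (tmix μ n (π n) (1 / 4) + α * w n) < ε := by
    refine eventually_lt_of_limsup_lt h2 ?_
    exact ⟨1, by
      rw [eventually_map]
      filter_upwards [eventually_ge_atTop 1] with n hn
      exact worst_le_one hμ (by omega) (hπ n hn).1
        (add_nonneg (hT n) (mul_nonneg hα.le (hw0 n)))⟩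
  -- `α w ≤ t_mix` and `2 α w ≤ n` for all large `n`
  have c1 : ∀ᶠ n : ℕ in atTop, α * w n ≤ tmix μ n (π n) (1 / 4) := by
    have h := hwt.def (c := 1 / α) (by positivity)
    filter_upwards [h] with n hn
    rw [Real.norm_of_nonneg (hw0 n), Real.norm_of_nonneg (hT n)] at hn
    have := mul_le_mul_of_nonneg_left hn hα.le
    rw [← mul_assoc, mul_one_div_cancel hα.ne', one_mul] at this
    exact this
  have c2 : ∀ᶠ n : ℕ in atTop, 2 * α * w n ≤ n := by
    have h := hw.def (c := 1 / (2 * α)) (by positivity)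
    filter_upwards [h] with n hn
    rw [Real.norm_of_nonneg (hw0 n), Real.norm_of_nonneg (Nat.cast_nonneg n)] at hn
    have := mul_le_mul_of_nonneg_left hn (by positivity : (0 : ℝ) ≤ 2 * α)
    rw [← mul_assoc, mul_one_div_cancel (by positivity), one_mul] at this
    exact this
  obtain ⟨n, ⟨⟨hb1, hb2⟩, hc1⟩, ⟨hc2, hn0⟩, hn1⟩ :=
    (((b1.and b2).and c1).and ((c2.and (eventually_ge_atTop n₀)).and
      (eventually_ge_atTop 1))).exists
  have := hkey n hn0 (π n) (hπ n hn1) (tmix μ n (π n) (1 / 4) - α * w n)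
    (tmix μ n (π n) (1 / 4) + α * w n) (by linarith)
    (by have := mul_nonneg hα.le (hw0 n); linarith) (by linarith) hb2.le
  linarith
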